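import Mathlib
import Pool.Agent.Helper93.Sun24

set_option autoImplicit false

namespace Pool.Agent.Results.MP_d8e6e5_nt.SunValuation

/-- The generalized binomial coefficient `x (x-1) ⋯ (x-k+1) / k!` for rational `x`. -/
def gbinom (x : ℚ) (k : ℕ) : ℚ := (∏ i ∈ Finset.range k, (x - (i : ℚ))) / (k.factorial : ℚ)

/-- `S_p(n) = ∑_{k=0}^{n-1} binom(-1/(p+1), k)^(p+1)`. -/
def sumS (p n : ℕ) : ℚ := ∑ k ∈ Finset.range n, gbinom (-1 / ((p : ℚ) + 1)) k ^ (p + 1)

/-- `c_2 = 1`, `c_3 = 3`, `c_p = 5` for `p ≥ 5`. -/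
def cc (p : ℕ) : ℕ := if p = 2 then 1 else if p = 3 then 3 else 5

/-- Full affirmative answer: for every prime `p` and every `n ≥ 1`, either `S_p(n) = 0`
(valuation `+∞`) or `ν_p(S_p(n)) ≥ c_p ⌊(ν_p(n)+1)/2⌋`. -/
theorem result (p : ℕ) (hp : p.Prime) (n : ℕ) (_hn : 0 < n) :
    sumS p n = 0 ∨ ((cc p * ((padicValNat p n + 1) / 2) : ℕ) : ℤ) ≤ padicValRat p (sumS p n) := by
  have hfact : Fact p.Prime := ⟨hp⟩
  have hS : sumS p n = Helper93.Sun.Sq p n := rfl
  rw [hS]
  by_cases h2 : p = 2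
  · subst h2
    have h : cc 2 = 1 := rfl
    rw [h]
    exact Helper93.Sun.two_case n
  · by_cases h3 : p = 3
    · subst h3
      have h : cc 3 = 3 := rfl
      rw [h]
      exact Helper93.Sun.odd_case (p := 3) (κ := 3) (s := 3) (Or.inl ⟨rfl, rfl, rfl⟩) n
    · have h5 : 5 ≤ p := by
        have := hp.two_le
        by_contra hcon
        have : p = 4 := by omega
        subst this
        exact absurd hp (by norm_num)
      have h : cc p = 5 := by rw [cc, if_neg h2, if_neg h3]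
      rw [h]
      exact Helper93.Sun.odd_case (κ := 5) (s := 6) (Or.inr ⟨h5, rfl, rfl⟩) n

end Pool.Agent.Results.MP_d8e6e5_nt.SunValuation
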